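import Mathlib
import Pool.Agent.TH855.Occ

set_option autoImplicit false

/-!
# Sharp local occupancy and one step of the counting induction
-/

namespace Pool.Agent.Q220.CN

open Finset Classical Pool.Agent.TH855

variable {V : Type} [Fintype V] {G : SimpleGraph V}

theorem occ0 (lam δ η T : ℝ) (hlam : 0 ≤ lam) (hδ : 0 < δ)
    (N : Finset V) (t : ℕ) (ht : 1 ≤ t) (hδt : 2 * t * lam ≤ δ)
    (hmain : (lam + δ) * (1 + T) + 2 ^ t * t.factorial / δ ^ (t - 1) * (t * lam * (1 + T) ^ t) ≤ η)
    (hK : ∀ W ⊆ N, W.card = t → (N.filter (fun u => ∀ w ∈ W, G.Adj u w)).card ≤ t)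
    (l : V → ℝ) (hl : ∀ u, 0 ≤ l u) (hl1 : ∀ u, l u ≤ lam) (hle : ∑ u ∈ N, l u ≤ 1 + T) :
    Zf G N l * (∑ u ∈ N, l u - η) ≤ Mf G N l := by
  have h1 := mf_lower (G := G) N l hl
  have h2 := kst (G := G) l lam δ hl hl1 hlam hδ N t ht hδt hK
  set Λ := ∑ u ∈ N, l u with hΛ
  have hΛ0 : 0 ≤ Λ := Finset.sum_nonneg (fun u _ => hl u)
  have h3 : Λ - η ≤ ∑ u ∈ N, l u * (1 - l u - Dg G N l u) := by
    have e1 : ∑ u ∈ N, l u * (1 - l u - Dg G N l u) =
        ∑ u ∈ N, l u - ∑ u ∈ N, l u * l u - ∑ u ∈ N, l u * Dg G N l u := by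
      rw [← Finset.sum_sub_distrib, ← Finset.sum_sub_distrib]
      refine Finset.sum_congr rfl (fun u _ => by ring)
    have e2 : ∑ u ∈ N, l u * l u ≤ lam * Λ := by
      rw [hΛ, Finset.mul_sum]
      refine Finset.sum_le_sum (fun u _ => ?_)
      exact mul_le_mul_of_nonneg_right (hl1 u) (hl u)
    rw [e1, ← hΛ]
    have e3 : (lam + δ) * Λ ≤ (lam + δ) * (1 + T) :=
      mul_le_mul_of_nonneg_left hle (by linarith)
    have e4 : 2 ^ t * (t.factorial : ℝ) / δ ^ (t - 1) * (t * lam * Λ ^ t) ≤
        2 ^ t * t.factorial / δ ^ (t - 1) * (t * lam * (1 + T) ^ t) := by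
      have : Λ ^ t ≤ (1 + T) ^ t := pow_le_pow_left₀ hΛ0 hle t
      have h0 : (0 : ℝ) ≤ t * lam := by positivity
      exact mul_le_mul_of_nonneg_left (mul_le_mul_of_nonneg_left this h0) (by positivity)
    have e5 : (lam + δ) * Λ = lam * Λ + δ * Λ := by ring
    linarith
  exact (mul_le_mul_of_nonneg_left h3 (zf_pos (G := G) N l hl).le).trans h1

/-- sharp local occupancy -/
theorem occ1 (lam δ η T : ℝ) (hlam : 0 ≤ lam) (hδ : 0 < δ) (hT : 0 ≤ T)
    (N : Finset V) (t : ℕ) (ht : 1 ≤ t) (hδt : 2 * t * lam ≤ δ)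
    (hmain : (lam + δ) * (1 + T) + 2 ^ t * t.factorial / δ ^ (t - 1) * (t * lam * (1 + T) ^ t) ≤ η)
    (hK : ∀ W ⊆ N, W.card = t → (N.filter (fun u => ∀ w ∈ W, G.Adj u w)).card ≤ t)
    (l : V → ℝ) (hl : ∀ u, 0 ≤ l u) (hl1 : ∀ u, l u ≤ lam) :
    (1 + T - η) * Zf G N l ≤ Real.exp T + Mf G N l := by
  have hZ := zf_pos (G := G) N l hl
  by_cases hle : ∑ u ∈ N, l u ≤ 1 + T
  · have h1 := occ0 (G := G) lam δ η T hlam hδ N t ht hδt hmain hK l hl hl1 hle
    have h2 := zf_le_exp (G := G) N l hl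
    set Λ := ∑ u ∈ N, l u with hΛ
    -- `(1 + T - Λ) Z ≤ exp T`
    have h3 : (1 + T - Λ) * Zf G N l ≤ Real.exp T := by
      have e1 : (1 + T - Λ) * Zf G N l ≤ (1 + T - Λ) * Real.exp Λ :=
        mul_le_mul_of_nonneg_left h2 (by linarith)
      have e2 : 1 + T - Λ ≤ Real.exp (T - Λ) := by
        have := Real.add_one_le_exp (T - Λ)
        linarith
      have e3 : (1 + T - Λ) * Real.exp Λ ≤ Real.exp (T - Λ) * Real.exp Λ :=
        mul_le_mul_of_nonneg_right e2 (Real.exp_pos _).le
      rw [← Real.exp_add, sub_add_cancel] at e3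
      linarith
    have h4 : (1 + T - η) * Zf G N l = (1 + T - Λ) * Zf G N l + Zf G N l * (Λ - η) := by ring
    rw [h4]
    linarith
  · push Not at hle
    set Λ := ∑ u ∈ N, l u with hΛ
    have h1T : 0 < 1 + T := by linarith
    have hΛ0 : 0 < Λ := h1T.trans hle
    set s := (1 + T) / Λ with hs
    have hs0 : 0 ≤ s := by positivity
    have hs1 : s ≤ 1 := by rw [hs, div_le_one hΛ0]; exact hle.le
    set m : V → ℝ := fun u => s * l u with hm
    have hm0 : ∀ u, 0 ≤ m u := fun u => mul_nonneg hs0 (hl u)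
    have hm1 : ∀ u, m u ≤ lam := by
      intro u
      have := mul_le_mul_of_nonneg_right hs1 (hl u)
      simp only [hm]
      linarith [hl1 u]
    have hmT : ∑ u ∈ N, m u = 1 + T := by
      simp only [hm]
      rw [← Finset.mul_sum, ← hΛ, hs]
      field_simp
    have h1 := occ0 (G := G) lam δ η T hlam hδ N t ht hδt hmain hK m hm0 hm1 hmT.le
    rw [hmT] at h1
    have hZm := zf_pos (G := G) N m hm0
    have h4 := scale (G := G) N l hl hs0 hs1
    have h6 : (Zf G N m * (1 + T - η)) * Zf G N l ≤ Mf G N l * Zf G N m :=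
      (mul_le_mul_of_nonneg_right h1 hZ.le).trans h4
    have h7 : (1 + T - η) * Zf G N l ≤ Mf G N l := by
      have h8 : Zf G N m * ((1 + T - η) * Zf G N l) ≤ Zf G N m * Mf G N l := by
        linarith
      exact le_of_mul_le_mul_left h8 hZm
    have := Real.exp_pos T
    linarith

/-- one step of the induction -/
theorem step1 {q s0 : ℕ} (hs0 : 2 ≤ s0) {β γ ρ : ℝ} (hβ : 0 < β) (hγ : 0 ≤ γ)
    {S : Finset V} {v : V} (hv : v ∉ S) (L : V → ℝ)
    (hocc : ∀ l : V → ℝ, (∀ u, 0 ≤ l u) → (∀ u, l u ≤ 1 / ((s0 : ℝ) - 1)) →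
      Zf G (S.filter (fun w => G.Adj v w)) l ≤
        β + γ * Mf G (S.filter (fun w => G.Adj v w)) l)
    (hmain : β * ρ ≤ q - γ * ((S.filter (fun w => G.Adj v w)).card : ℝ) -
      s0 * ∑ u ∈ S.filter (fun w => G.Adj v w), L u)
    (hIH : ∀ u ∈ S.filter (fun w => G.Adj v w),
      ((Col G q (S.erase u)).card : ℝ) ≤ L u * ((Col G q S).card : ℝ)) :
    ρ * ((Col G q S).card : ℝ) ≤ ((Col G q (insert v S)).card : ℝ) := by
  set N : Finset V := S.filter (fun w => G.Adj v w) with hNdef
  have hN : N ⊆ S := Finset.filter_subset _ _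
  have hs0' : (2 : ℝ) ≤ s0 := by exact_mod_cast hs0
  have hwt0 : ∀ (c : Fin q) f u, 0 ≤ wt G s0 c f u := by
    intro c f u
    rw [wt]
    split_ifs with h
    · have : (2 : ℝ) ≤ ((Av G f u).card : ℝ) := by exact_mod_cast hs0.trans h.2
      exact div_nonneg zero_le_one (by linarith)
    · exact le_refl _
  have hwt1 : ∀ (c : Fin q) f u, wt G s0 c f u ≤ 1 / ((s0 : ℝ) - 1) := by
    intro c f u
    rw [wt]
    split_ifs with h
    · have h2 : (s0 : ℝ) ≤ ((Av G f u).card : ℝ) := by exact_mod_cast h.2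
      exact div_le_div_of_nonneg_left zero_le_one (by linarith) (by linarith)
    · exact div_nonneg zero_le_one (by linarith)
  have hbig0 : ∀ (f : V → Option (Fin q)) u, 0 ≤ big G s0 f u := by
    intro f u; rw [big]; split_ifs <;> norm_num
  have hbig1 : ∀ (f : V → Option (Fin q)) u, big G s0 f u ≤ 1 := by
    intro f u; rw [big]; split_ifs <;> norm_num
  -- the number of colourings of `insert v S`
  have hcount : ((Col G q (insert v S)).card : ℝ) =
      ∑ c : Fin q, (((Col G q S).filter (fun f => Nc N c f = ∅)).card : ℝ) := by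
    have h1 : ((Col G q (insert v S)).card : ℝ) = ∑ g ∈ Col G q (insert v S), (1 : ℝ) := by
      simp
    rw [h1, sum_insert hv]
    have h2 : ∀ f ∈ Col G q S, ∑ c ∈ Av G f v, (1 : ℝ) =
        ∑ c : Fin q, if Nc N c f = ∅ then (1 : ℝ) else 0 := by
      intro f hf
      rw [← Finset.sum_filter]
      refine Finset.sum_congr ?_ (fun _ _ => rfl)
      ext c
      rw [mem_av, Finset.mem_filter]
      simp only [Finset.mem_univ, true_and]
      rw [Nc, Finset.filter_eq_empty_iff]
      constructor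
      · intro h w hw
        rw [hNdef, Finset.mem_filter] at hw
        exact h w hw.2
      · intro h w hw
        by_cases hwS : w ∈ S
        · exact h (by rw [hNdef, Finset.mem_filter]; exact ⟨hwS, hw⟩)
        · rw [((mem_col.1 hf).1 w).2 hwS]; simp
    rw [Finset.sum_congr rfl h2, Finset.sum_comm]
    refine Finset.sum_congr rfl (fun c _ => ?_)
    rw [← Finset.sum_filter]; simp
  -- for every colour
  have hcol : ∀ c : Fin q, ∑ f ∈ Col G q S, ∏ u ∈ Nc N c f, big G s0 f u ≤
      β * (((Col G q S).filter (fun f => Nc N c f = ∅)).card : ℝ) +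
        γ * ∑ f ∈ Col G q S, ((Nc N c f).card : ℝ) := by
    intro c
    have e1 := flip_sum (G := G) hs0 hN c (fun _ => (1 : ℝ))
    have e2 := flip_sum (G := G) hs0 hN c (fun n => (n : ℝ))
    simp only [one_mul] at e1
    rw [e1]
    have e3 : ∀ f ∈ (Col G q S).filter (fun f => Nc N c f = ∅),
        ∑ A ∈ Ind G N, ∏ u ∈ A, wt G s0 c f u ≤
          β + γ * ∑ A ∈ Ind G N, (A.card : ℝ) * ∏ u ∈ A, wt G s0 c f u := by
      intro f _
      exact hocc (wt G s0 c f) (hwt0 c f) (hwt1 c f)
    refine (Finset.sum_le_sum e3).trans ?_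
    rw [Finset.sum_add_distrib, ← Finset.mul_sum, ← e2, Finset.sum_const, nsmul_eq_mul]
    have e4 : ∑ f ∈ Col G q S, ((Nc N c f).card : ℝ) * ∏ u ∈ Nc N c f, big G s0 f u ≤
        ∑ f ∈ Col G q S, ((Nc N c f).card : ℝ) := by
      refine Finset.sum_le_sum (fun f _ => ?_)
      have : ∏ u ∈ Nc N c f, big G s0 f u ≤ 1 :=
        Finset.prod_le_one (fun u _ => hbig0 f u) (fun u _ => hbig1 f u)
      have h0 : (0 : ℝ) ≤ ((Nc N c f).card : ℝ) := by positivity
      nlinarith
    have e5 := mul_le_mul_of_nonneg_left e4 hγ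
    linarith
  -- sum over the colours
  have hsum := Finset.sum_le_sum (fun c (_ : c ∈ (univ : Finset (Fin q))) => hcol c)
  rw [Finset.sum_add_distrib, ← Finset.mul_sum, ← Finset.mul_sum, ← hcount] at hsum
  have hcls : ∑ c : Fin q, ∑ f ∈ Col G q S, ((Nc N c f).card : ℝ) ≤ N.card * (Col G q S).card := by
    rw [Finset.sum_comm]
    have h1 : ∀ f ∈ Col G q S, ∑ c : Fin q, ((Nc N c f).card : ℝ) ≤ (N.card : ℝ) := by
      intro f _
      have h2 : ∑ c : Fin q, (Nc N c f).card ≤ N.card := by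
        have h3 : ((univ : Finset (Fin q)).biUnion (fun c => Nc N c f)).card =
            ∑ c : Fin q, (Nc N c f).card := by
          refine Finset.card_biUnion ?_
          intro c _ c' _ hcc
          refine Finset.disjoint_left.2 ?_
          intro u hu hu'
          have a1 := (Finset.mem_filter.1 hu).2
          have a2 := (Finset.mem_filter.1 hu').2
          exact hcc (Option.some.inj (a1.symm.trans a2))
        rw [← h3]
        refine Finset.card_le_card ?_
        intro u hu
        rw [Finset.mem_biUnion] at hu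
        obtain ⟨c, -, hc⟩ := hu
        exact (Finset.mem_filter.1 hc).1
      have h4 : (((∑ c : Fin q, (Nc N c f).card : ℕ)) : ℝ) ≤ (N.card : ℝ) := by exact_mod_cast h2
      push_cast at h4
      linarith
    refine (Finset.sum_le_sum h1).trans ?_
    rw [Finset.sum_const, nsmul_eq_mul, mul_comm]
  have hshort : (q : ℝ) * (Col G q S).card - (s0 * ∑ u ∈ N, L u) * (Col G q S).card ≤
      ∑ c : Fin q, ∑ f ∈ Col G q S, ∏ u ∈ Nc N c f, big G s0 f u := by
    rw [Finset.sum_comm]
    have h1 : ∀ f ∈ Col G q S, (q : ℝ) - ∑ u ∈ N, (1 - big G s0 f u) ≤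
        ∑ c : Fin q, ∏ u ∈ Nc N c f, big G s0 f u := by
      intro f _
      have h2 : ∀ c : Fin q, 1 - ∑ u ∈ Nc N c f, (1 - big G s0 f u) ≤
          ∏ u ∈ Nc N c f, big G s0 f u := by
        intro c
        by_cases h : ∀ u ∈ Nc N c f, big G s0 f u = 1
        · rw [Finset.prod_congr rfl h, Finset.prod_const_one]
          have : 0 ≤ ∑ u ∈ Nc N c f, (1 - big G s0 f u) :=
            Finset.sum_nonneg (fun u _ => by linarith [hbig1 f u])
          linarith
        · push Not at h
          obtain ⟨u, hu, hub⟩ := h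
          have hu0 : big G s0 f u = 0 := by
            rw [big] at hub ⊢
            by_contra hcon
            split_ifs at hub hcon
            · exact hub rfl
            · exact hcon rfl
          have h3 : (1 : ℝ) - big G s0 f u ≤ ∑ u ∈ Nc N c f, (1 - big G s0 f u) :=
            Finset.single_le_sum (f := fun u => 1 - big G s0 f u)
              (fun w _ => by linarith [hbig1 f w]) hu
          have h4 : 0 ≤ ∏ u ∈ Nc N c f, big G s0 f u := Finset.prod_nonneg (fun w _ => hbig0 f w)
          linarith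
      have h5 := Finset.sum_le_sum (fun c (_ : c ∈ (univ : Finset (Fin q))) => h2 c)
      rw [Finset.sum_sub_distrib, Finset.sum_const, Finset.card_univ, Fintype.card_fin,
        nsmul_eq_mul, mul_one] at h5
      have h6 : ∑ c : Fin q, ∑ u ∈ Nc N c f, (1 - big G s0 f u) ≤
          ∑ u ∈ N, (1 - big G s0 f u) := by
        have h7 : ∀ c : Fin q, ∑ u ∈ Nc N c f, (1 - big G s0 f u) =
            ∑ u ∈ N, if f u = some c then (1 - big G s0 f u) else 0 := by
          intro c; rw [Nc, Finset.sum_filter]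
        simp only [h7]
        rw [Finset.sum_comm]
        refine Finset.sum_le_sum (fun u _ => ?_)
        cases hfu : f u with
        | none => simp; exact hbig1 f u
        | some c' =>
          have : ∀ c : Fin q, (if some c' = some c then (1 - big G s0 f u) else 0) =
              if c' = c then (1 - big G s0 f u) else 0 := by
            intro c; simp
          simp only [this]
          rw [Finset.sum_ite_eq]
          simp
      linarith
    have h8 := Finset.sum_le_sum h1
    rw [Finset.sum_sub_distrib, Finset.sum_const, nsmul_eq_mul, Finset.sum_comm] at h8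
    have h9 : ∑ u ∈ N, ∑ f ∈ Col G q S, (1 - big G s0 f u) ≤
        (s0 * ∑ u ∈ N, L u) * (Col G q S).card := by
      have h10 : ∀ u ∈ N, ∑ f ∈ Col G q S, (1 - big G s0 f u) ≤
          s0 * (L u * (Col G q S).card) := by
        intro u hu
        refine (short_lists (hN hu)).trans ?_
        exact mul_le_mul_of_nonneg_left (hIH u hu) (by linarith)
      refine (Finset.sum_le_sum h10).trans (le_of_eq ?_)
      rw [← Finset.mul_sum, ← Finset.sum_mul, mul_assoc]
    linarith
  have hfin : (q - γ * (N.card : ℝ) - s0 * ∑ u ∈ N, L u) * ((Col G q S).card : ℝ) ≤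
      β * ((Col G q (insert v S)).card : ℝ) := by
    have h1 := mul_le_mul_of_nonneg_left hcls hγ
    nlinarith
  have hC0 : (0 : ℝ) ≤ ((Col G q S).card : ℝ) := by positivity
  have h2 := mul_le_mul_of_nonneg_right hmain hC0
  have h3 : β * (ρ * ((Col G q S).card : ℝ)) ≤ β * ((Col G q (insert v S)).card : ℝ) := by
    linarith
  exact le_of_mul_le_mul_left h3 hβ

end Pool.Agent.Q220.CN
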