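import Mathlib
import Pool.Agent.Q220.CN.Occ1

set_option autoImplicit false

/-!
# The sharp lower bound for the number of colourings, deterministic form
-/

namespace Pool.Agent.Q220.CN

open Finset Classical Pool.Agent.TH855

variable {V : Type} [Fintype V] {G : SimpleGraph V}

/-- the degree, as a real number -/
noncomputable def dg (G : SimpleGraph V) (u : V) : ℝ :=
  ((univ.filter (fun w => G.Adj u w)).card : ℝ)

/-- number of neighbours in `S` -/
noncomputable def dS (G : SimpleGraph V) (S : Finset V) (u : V) : ℝ :=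
  ((S.filter (fun w => G.Adj u w)).card : ℝ)

theorem dS_le (S : Finset V) (u : V) : dS G S u ≤ dg G u := by
  rw [dS, dg]
  exact_mod_cast Finset.card_le_card (Finset.filter_subset_filter _ (Finset.subset_univ _))

/-- twice the number of edges inside `S` -/
noncomputable def E2 (G : SimpleGraph V) (S : Finset V) : ℝ :=
  ∑ u ∈ S, dS G S u

theorem E2_insert {S : Finset V} {v : V} (hv : v ∉ S) :
    E2 G (insert v S) = E2 G S + 2 * dS G S v := by
  have h0 : ∀ (S : Finset V) (u : V), dS G S u = ∑ w ∈ S, if G.Adj u w then (1 : ℝ) else 0 := by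
    intro S u
    rw [dS, ← Finset.sum_filter]; simp
  simp only [E2, h0]
  rw [Finset.sum_insert hv, Finset.sum_insert hv]
  simp only [Finset.sum_insert hv]
  rw [Finset.sum_add_distrib, if_neg (G.loopless.irrefl v)]
  have h1 : ∑ x ∈ S, (if G.Adj x v then (1 : ℝ) else 0) =
      ∑ w ∈ S, if G.Adj v w then (1 : ℝ) else 0 := by
    refine Finset.sum_congr rfl (fun x _ => ?_)
    rw [G.adj_comm]
  rw [h1]; ring

theorem ratio {q s0 t : ℕ} (hq : 0 < q) (hs0 : 2 ≤ s0) (ht : 1 ≤ t) {lam δ η B : ℝ}
    (hlam : 1 / ((s0 : ℝ) - 1) ≤ lam) (hδ : 0 < δ) (hη0 : 0 < η) (hη1 : η < 1)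
    (hδt : 2 * t * lam ≤ δ)
    (hoc : (lam + δ) * B + 2 ^ t * t.factorial / δ ^ (t - 1) * (t * lam * B ^ t) ≤ η / 2)
    (hB1 : 1 ≤ B) (hB : ∀ v u, G.Adj v u → 1 + dg G v / q ≤ B)
    (hloc : ∀ v, B * (s0 * ∑ u ∈ univ.filter (fun u => G.Adj v u), Real.exp (dg G u / q)) ≤
      η / 2 * ((1 - η) * q * q))
    (hK : ∀ v, ∀ X Y : Finset V, (∀ w ∈ X, G.Adj v w) → (∀ u ∈ Y, G.Adj v u) →
      (∀ u ∈ Y, ∀ w ∈ X, G.Adj u w) → X.card = t → Y.card ≤ t) :
    ∀ (n : ℕ) (S : Finset V), S.card = n → ∀ v, v ∉ S →
      ((1 - η) * q * Real.exp (-(dS G S v / q))) * ((Col G q S).card : ℝ) ≤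
        ((Col G q (insert v S)).card : ℝ) := by
  have hq0 : (0 : ℝ) < q := by exact_mod_cast hq
  have h1η : 0 < 1 - η := by linarith
  have hs0' : (2 : ℝ) ≤ s0 := by exact_mod_cast hs0
  have hlam0 : 0 ≤ lam := le_trans (div_nonneg zero_le_one (by linarith)) hlam
  intro n
  induction n with
  | zero =>
    intro S hS v hv
    rw [Finset.card_eq_zero] at hS
    subst hS
    refine step1 (G := G) hs0 (β := 1) (γ := 0) one_pos le_rfl hv (fun _ => 0) ?_ ?_ ?_
    · intro l hl _
      have h1 := zf_le_exp (G := G) ((∅ : Finset V).filter (fun w => G.Adj v w)) l hl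
      simp at h1
      simpa using h1
    · simp [dS]
      nlinarith
    · intro u hu; simp at hu
  | succ n ih =>
    intro S hS v hv
    set N : Finset V := S.filter (fun w => G.Adj v w) with hNdef
    have hNc : (N.card : ℝ) = dS G S v := rfl
    set T : ℝ := dS G S v / q with hT
    have hT0 : 0 ≤ T := by rw [hT, dS]; positivity
    have hTB : 1 + T ≤ B := by
      by_cases hN : N.Nonempty
      · obtain ⟨u, hu⟩ := hN
        have h1 := hB v u (Finset.mem_filter.1 hu).2
        have h2 : T ≤ dg G v / q := by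
          rw [hT]; exact div_le_div_of_nonneg_right (dS_le S v) hq0.le
        linarith
      · rw [Finset.not_nonempty_iff_eq_empty] at hN
        have : T = 0 := by rw [hT, ← hNc, hN]; simp
        linarith
    set a : ℝ := 1 + T - η / 2 with ha
    have ha0 : 0 < a := by rw [ha]; linarith
    set L : V → ℝ := fun u => Real.exp (dg G u / q) / ((1 - η) * q) with hL
    have hpos : 0 < (1 - η) * q := by positivity
    refine step1 (G := G) hs0 (β := Real.exp T / a) (γ := 1 / a) (by positivity) (by positivity)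
      hv L ?_ ?_ ?_
    · intro l hl hl1
      have h1 := occ1 (G := G) lam δ (η / 2) T hlam0 hδ hT0 N t ht hδt ?_ ?_ l hl
        (fun u => (hl1 u).trans hlam)
      · rw [← hNdef]
        have h2 : Zf G N l = (a * Zf G N l) / a := by field_simp
        rw [h2]
        calc (a * Zf G N l) / a ≤ (Real.exp T + Mf G N l) / a :=
              div_le_div_of_nonneg_right h1 ha0.le
          _ = _ := by ring
      · refine le_trans ?_ hoc
        have h1T : 0 ≤ 1 + T := by linarith
        have e1 : (lam + δ) * (1 + T) ≤ (lam + δ) * B :=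
          mul_le_mul_of_nonneg_left hTB (by linarith)
        have e2 : (1 + T) ^ t ≤ B ^ t := pow_le_pow_left₀ h1T hTB t
        have h0 : (0 : ℝ) ≤ t * lam := by positivity
        have e3 := mul_le_mul_of_nonneg_left (mul_le_mul_of_nonneg_left e2 h0)
          (show (0 : ℝ) ≤ 2 ^ t * t.factorial / δ ^ (t - 1) by positivity)
        linarith
      · intro W hW hWt
        refine hK v W _ (fun w hw => (Finset.mem_filter.1 (hW hw)).2) ?_ ?_ hWt
        · intro u hu
          exact (Finset.mem_filter.1 (Finset.mem_filter.1 hu).1).2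
        · intro u hu
          exact (Finset.mem_filter.1 hu).2
    · rw [← hNdef]
      have h1 : Real.exp T / a * ((1 - η) * q * Real.exp (-T)) = ((1 - η) * q) / a := by
        have : Real.exp T * Real.exp (-T) = 1 := by rw [← Real.exp_add]; simp
        calc _ = ((1 - η) * q) * (Real.exp T * Real.exp (-T)) / a := by ring
          _ = _ := by rw [this, mul_one]
      rw [h1]
      have h2 : ∑ u ∈ N, L u ≤
          (∑ u ∈ univ.filter (fun u => G.Adj v u), Real.exp (dg G u / q)) / ((1 - η) * q) := by
        simp only [hL]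
        rw [← Finset.sum_div]
        refine div_le_div_of_nonneg_right ?_ hpos.le
        refine Finset.sum_le_sum_of_subset_of_nonneg
          (Finset.filter_subset_filter _ (Finset.subset_univ _)) ?_
        intro u _ _
        exact (Real.exp_pos _).le
      have h3 : a * (s0 * ∑ u ∈ N, L u) ≤ η / 2 * q := by
        have hsum0 : 0 ≤ ∑ u ∈ N, L u := by
          refine Finset.sum_nonneg (fun u _ => ?_)
          simp only [hL]; positivity
        have haB : a ≤ B := by rw [ha]; linarith
        have e1 : a * (s0 * ∑ u ∈ N, L u) ≤ B * (s0 * ∑ u ∈ N, L u) :=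
          mul_le_mul_of_nonneg_right haB (by positivity)
        have e2 : B * (s0 * ∑ u ∈ N, L u) ≤ B * (s0 *
            ((∑ u ∈ univ.filter (fun u => G.Adj v u), Real.exp (dg G u / q)) /
              ((1 - η) * q))) := by
          refine mul_le_mul_of_nonneg_left ?_ (by linarith)
          exact mul_le_mul_of_nonneg_left h2 (by linarith)
        have e3 : B * (s0 *
            ((∑ u ∈ univ.filter (fun u => G.Adj v u), Real.exp (dg G u / q)) /
              ((1 - η) * q))) = (B * (s0 *
            ∑ u ∈ univ.filter (fun u => G.Adj v u), Real.exp (dg G u / q))) /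
              ((1 - η) * q) := by ring
        have e4 : (B * (s0 *
            ∑ u ∈ univ.filter (fun u => G.Adj v u), Real.exp (dg G u / q))) /
              ((1 - η) * q) ≤ η / 2 * q := by
          rw [div_le_iff₀ hpos]
          have := hloc v
          linarith
        linarith
      rw [div_le_iff₀ ha0]
      have h4 : (q - 1 / a * (N.card : ℝ) - s0 * ∑ u ∈ N, L u) * a =
          q * a - N.card - a * (s0 * ∑ u ∈ N, L u) := by
        field_simp
      rw [h4, hNc]
      have h5 : dS G S v = T * q := by rw [hT]; field_simp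
      rw [h5, ha] at *
      nlinarith
    · intro u hu
      have huS : u ∈ S := (Finset.mem_filter.1 hu).1
      have h1 := ih (S.erase u) (by rw [Finset.card_erase_of_mem huS, hS]; rfl) u
        (Finset.notMem_erase u S)
      rw [Finset.insert_erase huS] at h1
      have h2 : Real.exp (-(dg G u / q)) ≤ Real.exp (-(dS G (S.erase u) u / q)) := by
        apply Real.exp_le_exp.2
        have := div_le_div_of_nonneg_right (dS_le (G := G) (S.erase u) u) hq0.le
        linarith
      have hC0 : (0 : ℝ) ≤ ((Col G q (S.erase u)).card : ℝ) := by positivity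
      have h3 : ((1 - η) * q * Real.exp (-(dg G u / q))) * ((Col G q (S.erase u)).card : ℝ) ≤
          ((Col G q S).card : ℝ) :=
        le_trans (mul_le_mul_of_nonneg_right (mul_le_mul_of_nonneg_left h2 hpos.le) hC0) h1
      have h4 : ((Col G q (S.erase u)).card : ℝ) = L u * (((1 - η) * q *
          Real.exp (-(dg G u / q))) * ((Col G q (S.erase u)).card : ℝ)) := by
        simp only [hL]
        have : Real.exp (dg G u / q) * Real.exp (-(dg G u / q)) = 1 := by
          rw [← Real.exp_add]; simp
        have hne := hpos.ne'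
        calc ((Col G q (S.erase u)).card : ℝ) = (Real.exp (dg G u / q) *
              Real.exp (-(dg G u / q))) * (((1 - η) * q) / ((1 - η) * q)) *
                ((Col G q (S.erase u)).card : ℝ) := by
              rw [this, div_self hne]; ring
          _ = _ := by ring
      rw [h4]
      refine mul_le_mul_of_nonneg_left h3 ?_
      simp only [hL]; positivity

theorem count {q s0 t : ℕ} (hq : 0 < q) (hs0 : 2 ≤ s0) (ht : 1 ≤ t) {lam δ η B : ℝ}
    (hlam : 1 / ((s0 : ℝ) - 1) ≤ lam) (hδ : 0 < δ) (hη0 : 0 < η) (hη1 : η < 1)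
    (hδt : 2 * t * lam ≤ δ)
    (hoc : (lam + δ) * B + 2 ^ t * t.factorial / δ ^ (t - 1) * (t * lam * B ^ t) ≤ η / 2)
    (hB1 : 1 ≤ B) (hB : ∀ v u, G.Adj v u → 1 + dg G v / q ≤ B)
    (hloc : ∀ v, B * (s0 * ∑ u ∈ univ.filter (fun u => G.Adj v u), Real.exp (dg G u / q)) ≤
      η / 2 * ((1 - η) * q * q))
    (hK : ∀ v, ∀ X Y : Finset V, (∀ w ∈ X, G.Adj v w) → (∀ u ∈ Y, G.Adj v u) →
      (∀ u ∈ Y, ∀ w ∈ X, G.Adj u w) → X.card = t → Y.card ≤ t) (S : Finset V) :
    ((1 - η) * q) ^ S.card * Real.exp (-(E2 G S / (2 * q))) ≤ ((Col G q S).card : ℝ) := by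
  have hq0 : (0 : ℝ) < q := by exact_mod_cast hq
  have h1η : 0 < 1 - η := by linarith
  induction S using Finset.induction_on with
  | empty =>
    have : (fun _ => none) ∈ Col G q ∅ := by
      rw [mem_col]; simp
    have h1 : (1 : ℝ) ≤ ((Col G q ∅).card : ℝ) := by
      exact_mod_cast Finset.card_pos.2 ⟨_, this⟩
    simpa [E2] using h1
  | insert v S hv ih =>
    have h1 := ratio hq hs0 ht hlam hδ hη0 hη1 hδt hoc hB1 hB hloc hK S.card S rfl v hv
    refine le_trans ?_ h1
    rw [Finset.card_insert_of_notMem hv, E2_insert hv]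
    have h2 : Real.exp (-((E2 G S + 2 * dS G S v) / (2 * q))) =
        Real.exp (-(dS G S v / q)) * Real.exp (-(E2 G S / (2 * q))) := by
      rw [← Real.exp_add]; congr 1; field_simp; ring
    rw [h2, pow_succ]
    have h3 : 0 ≤ (1 - η) * q * Real.exp (-(dS G S v / q)) := by positivity
    calc _ = ((1 - η) * q * Real.exp (-(dS G S v / q))) *
          (((1 - η) * q) ^ S.card * Real.exp (-(E2 G S / (2 * q)))) := by ring
      _ ≤ _ := mul_le_mul_of_nonneg_left ih h3

/-- `Col G q univ` and the proper colourings -/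
theorem card_col_le (q : ℕ) : (Col G q univ).card ≤ Nat.card (G.Coloring (Fin q)) := by
  have hfin : Finite (G.Coloring (Fin q)) :=
    Finite.of_injective (fun C : G.Coloring (Fin q) => (fun v => C v : V → Fin q)) (by
      intro C D h
      ext v
      exact congrArg Fin.val (congrFun h v))
  have hsome : ∀ f : Col G q univ, ∀ v, ((f : V → Option (Fin q)) v).isSome := by
    intro f v
    rw [Option.isSome_iff_ne_none]
    exact ((mem_col.1 f.2).1 v).not.2 (by simp)
  rw [← Fintype.card_coe, ← Nat.card_eq_fintype_card]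
  refine Nat.card_le_card_of_injective (fun f : Col G q univ =>
    SimpleGraph.Coloring.mk (G := G) (fun v => ((f : V → Option (Fin q)) v).get (hsome f v)) ?_) ?_
  · intro u v huv h
    refine (mem_col.1 f.2).2 u v huv (((mem_col.1 f.2).1 u).not.2 (by simp)) ?_
    rw [← Option.some_get (hsome f u), ← Option.some_get (hsome f v), h]
  · intro f g hfg
    apply Subtype.ext
    funext v
    have h1 := congrArg (fun C : G.Coloring (Fin q) => C v) hfg
    have h2 : ((f : V → Option (Fin q)) v).get (hsome f v) =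
        ((g : V → Option (Fin q)) v).get (hsome g v) := h1
    rw [← Option.some_get (hsome f v), ← Option.some_get (hsome g v), h2]

theorem E2_univ [DecidableRel G.Adj] : E2 G univ = 2 * (G.edgeFinset.card : ℝ) := by
  have h1 := G.sum_degrees_eq_twice_card_edges
  have h2 : ((∑ v, G.degree v : ℕ) : ℝ) = ((2 * G.edgeFinset.card : ℕ) : ℝ) := by rw [h1]
  push_cast at h2
  rw [← h2, E2]
  refine Finset.sum_congr rfl (fun v _ => ?_)
  rw [dS, ← SimpleGraph.card_neighborFinset_eq_degree, SimpleGraph.neighborFinset_eq_filter]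
  congr 2
  ext w; simp

theorem final [DecidableRel G.Adj] {q : ℕ} (hq : 0 < q) {η : ℝ} (hη1 : η < 1)
    (h : ((1 - η) * q) ^ (univ : Finset V).card * Real.exp (-(E2 G univ / (2 * q))) ≤
      ((Col G q univ).card : ℝ)) :
    (1 - 1 / (q : ℝ)) ^ G.edgeFinset.card * ((1 - η) * q) ^ Fintype.card V ≤
      (Nat.card (G.Coloring (Fin q)) : ℝ) := by
  have hq0 : (0 : ℝ) < q := by exact_mod_cast hq
  have hq1 : (1 : ℝ) ≤ q := by exact_mod_cast hq
  have h1η : 0 < 1 - η := by linarith
  refine le_trans ?_ (h.trans (by exact_mod_cast card_col_le q))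
  rw [Finset.card_univ, mul_comm, E2_univ]
  refine mul_le_mul_of_nonneg_left ?_ (by positivity)
  have h1 : 0 ≤ 1 - 1 / (q : ℝ) := by
    have : 1 / (q : ℝ) ≤ 1 := by rw [div_le_one hq0]; exact hq1
    linarith
  have h2 : 1 - 1 / (q : ℝ) ≤ Real.exp (-(1 / (q : ℝ))) := by
    have := Real.add_one_le_exp (-(1 / (q : ℝ)))
    linarith
  calc (1 - 1 / (q : ℝ)) ^ G.edgeFinset.card ≤ Real.exp (-(1 / (q : ℝ))) ^ G.edgeFinset.card :=
        pow_le_pow_left₀ h1 h2 _
    _ = Real.exp (-(2 * (G.edgeFinset.card : ℝ) / (2 * q))) := by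
        rw [← Real.exp_nat_mul]; congr 1; field_simp

end Pool.Agent.Q220.CN
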