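import Mathlib
import Pool.Agent.Q220.CN.Main

set_option autoImplicit false

/-!
# The sharp lower bound for the number of colourings, for large numbers of colours
-/

namespace Pool.Agent.Q220.CN

open Finset Classical Filter Asymptotics Pool.Agent.TH855

theorem asy_exp {α κ : ℝ} (hα : 0 < α) (hκ : 0 < κ) (N : ℕ) :
    ∀ᶠ x : ℝ in atTop, Real.exp (-(α * x)) * (x + 1) ^ N ≤ κ := by
  have h := (isLittleO_pow_exp_pos_mul_atTop (k := N) hα).def
    (show 0 < κ * Real.exp (-α) by positivity)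
  have h1 : Tendsto (fun x : ℝ => x + 1) atTop atTop := tendsto_atTop_add_const_right _ _ tendsto_id
  filter_upwards [h1.eventually h, eventually_ge_atTop 0] with x hx hx0
  rw [Real.norm_of_nonneg (by positivity), Real.norm_of_nonneg (by positivity)] at hx
  calc Real.exp (-(α * x)) * (x + 1) ^ N
      ≤ Real.exp (-(α * x)) * (κ * Real.exp (-α) * Real.exp (α * (x + 1))) :=
        mul_le_mul_of_nonneg_left hx (Real.exp_pos _).le
    _ = κ * Real.exp (-(α * x) + -α + α * (x + 1)) := by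
        rw [Real.exp_add, Real.exp_add]; ring
    _ = κ := by
        have : -(α * x) + -α + α * (x + 1) = 0 := by ring
        rw [this, Real.exp_zero, mul_one]

/-- no neighbourhood contains `K_{t,t+1}` -/
def Nb (t : ℕ) {V : Type} (G : SimpleGraph V) : Prop :=
  ∀ v, ∀ X Y : Finset V, (∀ w ∈ X, G.Adj v w) → (∀ u ∈ Y, G.Adj v u) →
      (∀ u ∈ Y, ∀ w ∈ X, G.Adj u w) → X.card = t → Y.card ≤ t

theorem asy (t : ℕ) (ht : 1 ≤ t) (ε η : ℝ) (hε : 0 < ε) (hη0 : 0 < η) (hη1 : η < 1) :
    ∃ q0 : ℕ, ∀ q : ℕ, q0 ≤ q → ∀ (V : Type) [Fintype V] (G : SimpleGraph V)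
      [DecidableRel G.Adj], Nb t G →
      (∀ v, ∑ u ∈ univ.filter (fun u => G.Adj v u), Real.exp (dg G u / q) ≤
        (q : ℝ) ^ (2 - ε)) →
      (1 - 1 / (q : ℝ)) ^ G.edgeFinset.card * ((1 - η) * q) ^ Fintype.card V ≤
        (Nat.card (G.Coloring (Fin q)) : ℝ) := by
  set e : ℝ := min ε 1 with he
  have he0 : 0 < e := lt_min hε one_pos
  have he1 : e ≤ 1 := min_le_right _ _
  have heε : e ≤ ε := min_le_left _ _
  have htpos : (0 : ℝ) < t := by exact_mod_cast ht
  have h1η : 0 < 1 - η := by linarith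
  set C4 : ℝ := 2 ^ t * t.factorial * (8 / η) ^ (t - 1) * t * 4 ^ t with hC4
  have hC40 : 0 < C4 := by rw [hC4]; positivity
  set κ : ℝ := min (min (η / (32 * t)) (η / 16)) (min (η / (4 * C4)) (η * (1 - η) / 12)) with hκ
  have hκ0 : 0 < κ := by
    rw [hκ]
    refine lt_min (lt_min (by positivity) (by positivity)) (lt_min (by positivity) (by positivity))
  have hκ1 : κ ≤ η / (32 * t) := (min_le_left _ _).trans (min_le_left _ _)
  have hκ2 : κ ≤ η / 16 := (min_le_left _ _).trans (min_le_right _ _)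
  have hκ3 : κ ≤ η / (4 * C4) := (min_le_right _ _).trans (min_le_left _ _)
  have hκ4 : κ ≤ η * (1 - η) / 12 := (min_le_right _ _).trans (min_le_right _ _)
  have hlogtend : Tendsto (fun n : ℕ => Real.log (n : ℝ)) atTop atTop :=
    Real.tendsto_log_atTop.comp tendsto_natCast_atTop_atTop
  have E1 := hlogtend.eventually (asy_exp (α := e / 2) (by positivity) hκ0 (2 * t))
  have E2 := hlogtend.eventually_ge_atTop 1
  obtain ⟨q₀, hq₀⟩ := eventually_atTop.1 (E1.and E2)
  refine ⟨max q₀ 1, ?_⟩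
  intro q hqq V _ G _ hNb hloc
  obtain ⟨e1, e2⟩ := hq₀ q ((le_max_left _ _).trans hqq)
  have hq1 : 1 ≤ q := (le_max_right _ _).trans hqq
  set L := Real.log (q : ℝ) with hL
  have hq1' : (1 : ℝ) ≤ q := by exact_mod_cast hq1
  have hq0 : (0 : ℝ) < q := by linarith
  have hqexp : (q : ℝ) = Real.exp L := by rw [hL, Real.exp_log hq0]
  have hL0 : 0 < L := by linarith
  set lam : ℝ := Real.exp (-(e / 2 * L)) with hlam
  have hlam0 : 0 < lam := Real.exp_pos _
  set P : ℝ := (L + 1) ^ (2 * t) with hP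
  have hLP : L + 1 ≤ P := by
    calc L + 1 = (L + 1) ^ 1 := by ring
      _ ≤ (L + 1) ^ (2 * t) := pow_le_pow_right₀ (by linarith) (by omega)
  have hlamL : lam * (L + 1) ≤ κ := (mul_le_mul_of_nonneg_left hLP hlam0.le).trans e1
  set B : ℝ := 1 + 2 * L with hB
  have hB0 : 0 < B := by linarith
  have hB1 : 1 ≤ B := by linarith
  have hB2 : B ≤ 2 * (L + 1) := by linarith
  have hlamB : lam * B ≤ 2 * κ := by
    calc lam * B ≤ lam * (2 * (L + 1)) := mul_le_mul_of_nonneg_left hB2 hlam0.le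
      _ = 2 * (lam * (L + 1)) := by ring
      _ ≤ 2 * κ := by linarith
  set δ : ℝ := η / (8 * B) with hδ
  have hδ0 : 0 < δ := by positivity
  -- the numbers
  set s0 : ℕ := ⌈Real.exp (e / 2 * L)⌉₊ + 1 with hs0
  have hs0a : Real.exp (e / 2 * L) ≤ (s0 : ℝ) - 1 := by
    rw [hs0]; push_cast
    have := Nat.le_ceil (Real.exp (e / 2 * L))
    linarith
  have hexp1 : 1 < Real.exp (e / 2 * L) := Real.one_lt_exp_iff.2 (by positivity)
  have hs0b : (s0 : ℝ) ≤ 3 * Real.exp (e / 2 * L) := by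
    rw [hs0]; push_cast
    have := Nat.ceil_lt_add_one (Real.exp_pos (e / 2 * L)).le
    linarith
  have hs02 : 2 ≤ s0 := by
    have : (1 : ℝ) < (s0 : ℝ) - 1 := lt_of_lt_of_le hexp1 hs0a
    have h2 : (2 : ℝ) < s0 := by linarith
    exact_mod_cast h2.le
  have hinv : 1 / ((s0 : ℝ) - 1) ≤ lam := by
    have h1 : lam = 1 / Real.exp (e / 2 * L) := by
      rw [hlam, Real.exp_neg, one_div]
    rw [h1]
    exact div_le_div_of_nonneg_left zero_le_one (Real.exp_pos _) hs0a
  have hqe : (q : ℝ) ^ (2 - ε) ≤ Real.exp ((2 - e) * L) := by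
    rw [Real.rpow_def_of_pos hq0, ← hL]
    apply Real.exp_le_exp.2
    nlinarith
  have hδt : 2 * t * lam ≤ δ := by
    rw [hδ, le_div_iff₀ (by positivity)]
    have h1 : κ * (32 * t) ≤ η := by
      rw [le_div_iff₀ (by positivity)] at hκ1; exact hκ1
    calc 2 * t * lam * (8 * B) = 16 * t * (lam * B) := by ring
      _ ≤ 16 * t * (2 * κ) := mul_le_mul_of_nonneg_left hlamB (by positivity)
      _ = κ * (32 * t) := by ring
      _ ≤ η := h1
  have hoc : (lam + δ) * B + 2 ^ t * t.factorial / δ ^ (t - 1) * (t * lam * B ^ t) ≤ η / 2 := by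
    have h1 : δ * B = η / 8 := by rw [hδ]; field_simp
    have h2 : (lam + δ) * B ≤ η / 4 := by
      have : (lam + δ) * B = lam * B + δ * B := by ring
      rw [this, h1]
      linarith
    have h3 : 1 / δ ^ (t - 1) = (8 / η) ^ (t - 1) * B ^ (t - 1) := by
      rw [hδ, div_pow, one_div_div, div_pow, mul_pow]
      ring
    have h4 : B ^ (t - 1) * B ^ t ≤ 4 ^ t * P := by
      have h5 : B ^ (t - 1) * B ^ t ≤ B ^ (2 * t) := by
        rw [← pow_add]
        exact pow_le_pow_right₀ hB1 (by omega)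
      have h6 : B ^ (2 * t) ≤ (2 * (L + 1)) ^ (2 * t) := pow_le_pow_left₀ hB0.le hB2 _
      have h7 : (2 * (L + 1)) ^ (2 * t) = 4 ^ t * P := by
        rw [mul_pow, hP, pow_mul 2 2 t]; norm_num
      linarith
    have h5 : 2 ^ t * (t.factorial : ℝ) / δ ^ (t - 1) * (t * lam * B ^ t) =
        (2 ^ t * t.factorial * (8 / η) ^ (t - 1) * t) * (lam * (B ^ (t - 1) * B ^ t)) := by
      calc 2 ^ t * (t.factorial : ℝ) / δ ^ (t - 1) * (t * lam * B ^ t) =
            2 ^ t * (t.factorial : ℝ) * (1 / δ ^ (t - 1)) * (t * lam * B ^ t) := by ring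
        _ = _ := by rw [h3]; ring
    have h6 : 2 ^ t * (t.factorial : ℝ) / δ ^ (t - 1) * (t * lam * B ^ t) ≤ η / 4 := by
      rw [h5]
      calc (2 ^ t * (t.factorial : ℝ) * (8 / η) ^ (t - 1) * t) * (lam * (B ^ (t - 1) * B ^ t))
          ≤ (2 ^ t * (t.factorial : ℝ) * (8 / η) ^ (t - 1) * t) * (lam * (4 ^ t * P)) :=
            mul_le_mul_of_nonneg_left (mul_le_mul_of_nonneg_left h4 hlam0.le) (by positivity)
        _ = C4 * (lam * P) := by rw [hC4]; ring
        _ ≤ C4 * κ := mul_le_mul_of_nonneg_left e1 hC40.le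
        _ ≤ η / 4 := by
          rw [le_div_iff₀ (by positivity)] at hκ3
          linarith
    linarith
  have hBv : ∀ v u, G.Adj v u → 1 + dg G v / q ≤ B := by
    intro v u hvu
    have h1 := hloc u
    have h2 : Real.exp (dg G v / q) ≤
        ∑ w ∈ univ.filter (fun w => G.Adj u w), Real.exp (dg G w / q) :=
      Finset.single_le_sum (f := fun w => Real.exp (dg G w / q))
        (fun w _ => (Real.exp_pos _).le) (Finset.mem_filter.2 ⟨Finset.mem_univ _, hvu.symm⟩)
    have h3 : Real.exp (dg G v / q) ≤ Real.exp ((2 - e) * L) := h2.trans (h1.trans hqe)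
    have h4 := Real.exp_le_exp.1 h3
    rw [hB]
    nlinarith
  have hloc' : ∀ v, B * (s0 * ∑ u ∈ univ.filter (fun u => G.Adj v u), Real.exp (dg G u / q)) ≤
      η / 2 * ((1 - η) * q * q) := by
    intro v
    have h1 : ∑ u ∈ univ.filter (fun u => G.Adj v u), Real.exp (dg G u / q) ≤
        Real.exp ((2 - e) * L) := (hloc v).trans hqe
    have h2 : (s0 : ℝ) * ∑ u ∈ univ.filter (fun u => G.Adj v u), Real.exp (dg G u / q) ≤
        3 * Real.exp (e / 2 * L) * Real.exp ((2 - e) * L) := by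
      refine mul_le_mul hs0b h1 ?_ (by positivity)
      exact Finset.sum_nonneg (fun u _ => (Real.exp_pos _).le)
    have h3 : Real.exp (e / 2 * L) * Real.exp ((2 - e) * L) = lam * (q * q) := by
      rw [hqexp, hlam, ← Real.exp_add, ← Real.exp_add, ← Real.exp_add]
      congr 1; ring
    have h4 : B * (3 * Real.exp (e / 2 * L) * Real.exp ((2 - e) * L)) =
        3 * (lam * B) * (q * q) := by
      rw [mul_assoc 3, h3]; ring
    calc B * (s0 * ∑ u ∈ univ.filter (fun u => G.Adj v u), Real.exp (dg G u / q))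
        ≤ B * (3 * Real.exp (e / 2 * L) * Real.exp ((2 - e) * L)) :=
          mul_le_mul_of_nonneg_left h2 hB0.le
      _ = 3 * (lam * B) * (q * q) := h4
      _ ≤ 3 * (2 * κ) * (q * q) := by
          refine mul_le_mul_of_nonneg_right ?_ (by positivity)
          linarith
      _ ≤ η / 2 * ((1 - η) * q * q) := by
          have h5 : 6 * κ ≤ η / 2 * (1 - η) := by linarith
          have h6 := mul_le_mul_of_nonneg_right h5 (show (0 : ℝ) ≤ q * q by positivity)
          linarith
  exact final (G := G) (q := q) (by omega) hη1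
    (count (G := G) (by omega) hs02 ht hinv hδ0 hη0 hη1 hδt hoc hB1 hBv
      (by intro v; convert hloc' v) hNb univ)

theorem maxdeg (t : ℕ) (ht : 1 ≤ t) (ε η : ℝ) (hε : 0 < ε) (hη0 : 0 < η) (hη1 : η < 1) :
    ∃ D0 : ℕ, ∀ D : ℕ, D0 ≤ D → ∀ (V : Type) [Fintype V] (G : SimpleGraph V)
      [DecidableRel G.Adj], Nb t G → (∀ v, G.degree v ≤ D) → ∀ q : ℕ,
      (1 + ε) * ((D : ℝ) / Real.log D) ≤ q →
      (1 - 1 / (q : ℝ)) ^ G.edgeFinset.card * ((1 - η) * q) ^ Fintype.card V ≤
        (Nat.card (G.Coloring (Fin q)) : ℝ) := by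
  set a : ℝ := 1 / (1 + ε) with ha
  have ha0 : 0 < a := by positivity
  have ha1 : a < 1 := by rw [ha, div_lt_one (by linarith)]; linarith
  obtain ⟨q0, h0⟩ := asy t ht ((1 - a) / 2) η (by linarith) hη0 hη1
  set τ : ℝ := (1 - a) / 8 with hτ
  have hτ0 : 0 < τ := by rw [hτ]; linarith
  have hlogtend : Tendsto (fun n : ℕ => Real.log (n : ℝ)) atTop atTop :=
    Real.tendsto_log_atTop.comp tendsto_natCast_atTop_atTop
  have E1 := hlogtend.eventually (asy_exp (α := τ) hτ0 one_pos 1)
  have E2 := hlogtend.eventually_ge_atTop (max 1 (2 * Real.log (q0 + 1)))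
  obtain ⟨D₀, hD₀⟩ := eventually_atTop.1 (E1.and E2)
  refine ⟨max D₀ 1, ?_⟩
  intro D hD V _ G _ hNb hdeg q hq
  obtain ⟨e1, e2⟩ := hD₀ D ((le_max_left _ _).trans hD)
  have hD1 : (1 : ℝ) ≤ D := by exact_mod_cast (le_max_right _ _).trans hD
  set L := Real.log (D : ℝ) with hL
  have hL1 : 1 ≤ L := (le_max_left _ _).trans e2
  have hL2 : 2 * Real.log (q0 + 1) ≤ L := (le_max_right _ _).trans e2
  have hDexp : (D : ℝ) = Real.exp L := by rw [hL, Real.exp_log (by linarith)]
  have hL0 : 0 < L := by linarith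
  -- `q ≥ exp ((1 - τ) L)`
  have h1 : L ≤ Real.exp (τ * L) := by
    have h2 : Real.exp (-(τ * L)) * (L + 1) ≤ 1 := by simpa using e1
    have h3 : Real.exp (τ * L) * (Real.exp (-(τ * L)) * (L + 1)) ≤ Real.exp (τ * L) * 1 :=
      mul_le_mul_of_nonneg_left h2 (Real.exp_pos _).le
    rw [← mul_assoc, ← Real.exp_add] at h3
    simp at h3
    linarith
  have h2 : Real.exp ((1 - τ) * L) ≤ D / L := by
    rw [le_div_iff₀ hL0, hDexp]
    calc Real.exp ((1 - τ) * L) * L ≤ Real.exp ((1 - τ) * L) * Real.exp (τ * L) :=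
          mul_le_mul_of_nonneg_left h1 (Real.exp_pos _).le
      _ = Real.exp L := by rw [← Real.exp_add]; congr 1; ring
  have hDL : 0 < (D : ℝ) / L := by positivity
  have h3 : Real.exp ((1 - τ) * L) ≤ q := by
    have : (D : ℝ) / L ≤ (1 + ε) * (D / L) := by nlinarith
    linarith
  have hq0 : (0 : ℝ) < q := lt_of_lt_of_le (Real.exp_pos _) h3
  have hlogq : (1 - τ) * L ≤ Real.log q := by
    rw [Real.le_log_iff_exp_le hq0]; exact h3
  have hqq0 : q0 ≤ q := by
    have h4 : Real.log (q0 + 1) ≤ (1 - τ) * L := by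
      have : τ ≤ 1 / 2 := by rw [hτ]; linarith
      nlinarith
    have h5 : ((q0 : ℝ) + 1) ≤ q := by
      have h6 : (0 : ℝ) < (q0 : ℝ) + 1 := by positivity
      rw [← Real.exp_log h6]
      exact (Real.exp_le_exp.2 h4).trans h3
    have h6 : (q0 : ℝ) ≤ q := by linarith
    exact_mod_cast h6
  refine h0 q hqq0 V G hNb ?_
  have hDq : (D : ℝ) / q ≤ a * L := by
    rw [div_le_iff₀ hq0, ha]
    have h4 := mul_le_mul_of_nonneg_left hq (show 0 ≤ 1 / (1 + ε) * L by positivity)
    have h5 : 1 / (1 + ε) * L * ((1 + ε) * ((D : ℝ) / L)) = D := by field_simp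
    linarith
  intro v
  have hdg : ∀ u, dg G u ≤ D := by
    intro u
    have h4 : dg G u = G.degree u := by
      rw [dg, ← SimpleGraph.card_neighborFinset_eq_degree, SimpleGraph.neighborFinset_eq_filter]
      congr 2
      ext w; simp
    rw [h4]
    exact_mod_cast hdeg u
  have h4 : ∑ u ∈ univ.filter (fun u => G.Adj v u), Real.exp (dg G u / q) ≤
      ∑ _u ∈ univ.filter (fun u => G.Adj v u), Real.exp (a * L) := by
    refine Finset.sum_le_sum (fun u _ => ?_)
    apply Real.exp_le_exp.2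
    exact (div_le_div_of_nonneg_right (hdg u) hq0.le).trans hDq
  rw [Finset.sum_const, nsmul_eq_mul] at h4
  have h5 : ((univ.filter (fun u => G.Adj v u)).card : ℝ) ≤ Real.exp L := by
    rw [← hDexp]
    have h6 := hdg v
    rw [dg] at h6
    convert h6
  refine h4.trans ((mul_le_mul_of_nonneg_right h5 (Real.exp_pos _).le).trans ?_)
  rw [← Real.exp_add, Real.rpow_def_of_pos hq0]
  apply Real.exp_le_exp.2
  have h6 : 0 < 2 - (1 - a) / 2 := by linarith
  have h7 : (1 - τ) * L * (2 - (1 - a) / 2) ≤ Real.log q * (2 - (1 - a) / 2) :=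
    mul_le_mul_of_nonneg_right hlogq h6.le
  refine le_trans ?_ h7
  have h8 : 1 + a ≤ (1 - τ) * (2 - (1 - a) / 2) := by rw [hτ]; nlinarith
  calc L + a * L = (1 + a) * L := by ring
    _ ≤ ((1 - τ) * (2 - (1 - a) / 2)) * L := mul_le_mul_of_nonneg_right h8 hL0.le
    _ = _ := by ring

/-- an `F`-free graph has no `K_{t,t+1}` in a neighbourhood, for `F` almost bipartite -/
theorem nb_of_free {W : Type} [Fintype W] (F : SimpleGraph W)
    (hF : F.Colorable 2 ∨ ∃ x, (F.induce {y | y ≠ x}).Colorable 2) :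
    ∀ (V : Type) [Fintype V] (G : SimpleGraph V), F.Free G →
      1 ≤ Fintype.card W ∧ Nb (Fintype.card W) G := by
  intro V _ G hfree
  have hne : Nonempty W := by
    by_contra hne
    rw [not_nonempty_iff] at hne
    exact hfree ⟨⟨⟨fun w => isEmptyElim w, fun {a} => isEmptyElim a⟩, fun a => isEmptyElim a⟩⟩
  have hx : ∃ (x : W) (col : W → Bool), ∀ y z, F.Adj y z → y ≠ x → z ≠ x → col y ≠ col z := by
    rcases hF with hF | ⟨x, hF⟩
    · obtain ⟨x⟩ := hne
      obtain ⟨C⟩ := hF
      refine ⟨x, fun y => decide (C y = 0), ?_⟩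
      intro y z hyz _ _ h
      have h1 := C.valid hyz
      have h2 : (C y = 0) ↔ (C z = 0) := by simpa using h
      apply h1
      revert h2
      generalize C y = i
      generalize C z = j
      fin_cases i <;> fin_cases j <;> simp
    · obtain ⟨C⟩ := hF
      refine ⟨x, fun y => if h : y ≠ x then decide (C ⟨y, h⟩ = 0) else true, ?_⟩
      intro y z hyz hy hz h
      have h1 : C ⟨y, hy⟩ ≠ C ⟨z, hz⟩ := C.valid (by exact hyz)
      simp only [dif_pos hy, dif_pos hz] at h
      have h2 : (C ⟨y, hy⟩ = 0) ↔ (C ⟨z, hz⟩ = 0) := by simpa using h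
      apply h1
      revert h2
      generalize C ⟨y, hy⟩ = i
      generalize C ⟨z, hz⟩ = j
      fin_cases i <;> fin_cases j <;> simp
  obtain ⟨x, col, hcol⟩ := hx
  refine ⟨Fintype.card_pos_iff.2 ⟨x⟩, ?_⟩
  intro v A B hA hB hAB hAt
  by_contra hcon
  push Not at hcon
  apply hfree
  have hc1 : Fintype.card W ≤ Fintype.card A := by rw [Fintype.card_coe, hAt]
  have hc2 : Fintype.card W ≤ Fintype.card B := by rw [Fintype.card_coe]; omega
  obtain ⟨f⟩ := Function.Embedding.nonempty_of_card_le hc1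
  obtain ⟨g⟩ := Function.Embedding.nonempty_of_card_le hc2
  have hfA : ∀ y, G.Adj v (f y : V) := fun y => hA _ (f y).2
  have hgB : ∀ y, G.Adj v (g y : V) ∧ ∀ w ∈ A, G.Adj (g y : V) w := fun y =>
    ⟨hB _ (g y).2, hAB _ (g y).2⟩
  have hfg : ∀ y z, G.Adj (g y : V) (f z : V) := fun y z => (hgB y).2 _ (f z).2
  set φ : W → V := fun y => if y = x then v else if col y then (f y : V) else (g y : V) with hφ
  have hadj : ∀ y z, F.Adj y z → G.Adj (φ y) (φ z) := by
    intro y z hyz
    simp only [hφ]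
    by_cases hy : y = x
    · have hz : z ≠ x := by rw [← hy]; exact hyz.ne'
      rw [if_pos hy, if_neg hz]
      split_ifs
      · exact hfA z
      · exact (hgB z).1
    · by_cases hz : z = x
      · rw [if_pos hz, if_neg hy]
        split_ifs
        · exact (hfA y).symm
        · exact (hgB y).1.symm
      · rw [if_neg hy, if_neg hz]
        have := hcol y z hyz hy hz
        cases hcy : col y <;> cases hcz : col z
        · exact absurd (hcy.trans hcz.symm) this
        · simp only [Bool.false_eq_true, if_false, if_true]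
          exact hfg y z
        · simp only [Bool.false_eq_true, if_false, if_true]
          exact (hfg z y).symm
        · exact absurd (hcy.trans hcz.symm) this
  have hinj : Function.Injective φ := by
    intro y z hyz
    simp only [hφ] at hyz
    by_cases hy : y = x
    · by_cases hz : z = x
      · rw [hy, hz]
      · rw [if_pos hy, if_neg hz] at hyz
        exfalso
        split_ifs at hyz
        · exact (hfA z).ne hyz
        · exact (hgB z).1.ne hyz
    · by_cases hz : z = x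
      · rw [if_pos hz, if_neg hy] at hyz
        exfalso
        split_ifs at hyz
        · exact (hfA y).ne hyz.symm
        · exact (hgB y).1.ne hyz.symm
      · rw [if_neg hy, if_neg hz] at hyz
        split_ifs at hyz with h1 h2 h2
        · exact f.injective (Subtype.ext hyz)
        · exact absurd hyz.symm (hfg z y).ne
        · exact absurd hyz (hfg y z).ne
        · exact g.injective (Subtype.ext hyz)
  exact ⟨⟨⟨φ, fun {a b} h => hadj a b h⟩, hinj⟩⟩

end Pool.Agent.Q220.CN
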